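import Mathlib

/-!
# Non-trivial (n-3,3)-factorisations of perfect matchings

A set `D` of `462` perfect matchings of `K_12` (a union of seven orbits of `PSL(2,11)`) such that
every partition of the vertex set into two blocks of size six is refined by exactly ten members.
-/

namespace Pool.Agent.Results.MP_3f0bb6_co.TwelvePoints

open Finset

/-- `m` is (the edge set of) a perfect matching of the complete graph on `Fin N`. -/
def IsPM {N : ℕ} (m : Finset (Sym2 (Fin N))) : Prop :=
  (∀ e ∈ m, ¬ e.IsDiag) ∧ ∀ v : Fin N, ∃! e, e ∈ m ∧ v ∈ e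

/-- `m` refines the set partition `P`: every edge of `m` lies inside a single block of `P`. -/
def Refines {N : ℕ} (m : Finset (Sym2 (Fin N))) (P : Finpartition (univ : Finset (Fin N))) :
    Prop :=
  ∀ e ∈ m, ∃ B ∈ P.parts, ∀ v ∈ e, v ∈ B

/-- `D` is a `lam`-factorisation of `K_{2n}`: a non-empty set of perfect matchings such that, for
some `c > 0`, every set partition whose block sizes are the parts of `2 lam` is refined by exactly
`c` matchings of `D`. -/
def IsFactorisation (n : ℕ) (lam : Multiset ℕ) (D : Set (Finset (Sym2 (Fin (2 * n))))) : Prop :=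
  D.Nonempty ∧ (∀ m ∈ D, IsPM m) ∧ ∃ c : ℕ, 0 < c ∧
    ∀ P : Finpartition (univ : Finset (Fin (2 * n))),
      P.parts.val.map Finset.card = lam.map (fun x => 2 * x) →
      {m | m ∈ D ∧ Refines m P}.ncard = c

/-! ### Data: partner functions in base 16, and the edges as bit masks -/

def L : List ℕ :=
  [1269233506731, 1328881505451, 1452832942251, 1591608699051, 1595886896811, 1688549410731,
   1689339175851, 2432435329611, 2487145302651, 2643707894331, 3441685866891, 3462953150811,
   3659624130171, 3716374046091, 3888678019371, 4477087799451, 4768094885691, 4816159515531,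
   4823670490491, 4986816308091, 5649620633931, 5653916031291, 5712652966011, 5993939437131,
   5998251630891, 6679918249371, 6808232368011, 6973056688971, 7853975279931, 7922694787371,
   7978475935371, 8055774413931, 8120324802651, 8287728788811, 8909145458331, 8977308285291,
   9046365540651, 9115650302811, 9183774073131, 9322564556091, 10592284932171, 10605390403131,
   17817255056826, 18026942592186, 19817923181241, 20029647526581, 20087621380791,
   20908528412601, 21055413463476, 21197813818806, 21236055975096, 21266540176566,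
   21395690006196, 21480548507826, 22013444498361, 22140647279031, 22206331132086,
   22335568094136, 22434916487346, 22499591587251, 23122000692921, 23228066462136,
   23374951155891, 24211981018041, 24418139476146, 24464842119096, 24542425675956,
   24685760906421, 24777836414391, 25450424330676, 25454794983861, 25497648338616,
   25574970583221, 25879952622771, 26432628745401, 26638551584946, 26706914670006,
   26707002749106, 26775909770166, 28176112117176, 28185303664821, 28189602971826,
   28202239213746, 28207287903156, 35275699350426, 35422764112746, 35491553024826,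
   35693732895546, 35774511926106, 36310865107881, 36642103528356, 36717835013031,
   36728564042661, 36784606546851, 36873104096166, 38570156403606, 38763808533381,
   38896450120536, 38966380571496, 38992264342356, 39605630540601, 39652034247576,
   39814750182261, 39958288689921, 40016370342711, 40172196072291, 40699439901561,
   40700849167161, 40763612629911, 40889190161256, 40920311503686, 41099777739651,
   41270670027636, 41803361504121, 41882541575061, 41882544528276, 42004949539671,
   42370291751796, 43313289255681, 43472115866421, 44298313227111, 44436689025876,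
   44506917464901, 45768902794056, 45771521354631, 45794425051956, 52877559510426,
   52919456479626, 53285915636826, 54229340764326, 54251889013926, 54297132120231,
   54320750048421, 54381072789666, 55063209360021, 55256104417926, 55345360714356,
   55410606717441, 55564013255271, 55564060506711, 57265344919446, 57522540689031,
   57666664314981, 57763286398326, 57763642914561, 58279026145161, 58443794790756,
   58864265507841, 59680887517266, 59963280437541, 60493038925401, 60566060185236,
   60634746173766, 60819498250536, 60892586882181, 60892591272066, 61064255746146,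
   61616693949801, 61684947400596, 61960935813186, 62099087734356, 62099143439361,
   63360724022376, 63368016083031, 63369022781526, 63376896602226, 63385798555461,
   63391607928321, 70463908435866, 70580581406346, 70596688582266, 70722669713466,
   70865100965226, 70958050930986, 71490326980521, 71619929934246, 71812702238376,
   72582382193241, 72943604009571, 72981042395736, 72993389382261, 73157578549761,
   73827930056961, 74080018212216, 74256228263766, 76029924936051, 76454757602871,
   76998196794681, 77036051440536, 77108521695621, 77193892565106, 77458025678931,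
   77554664558706, 78205469546856, 78205539785016, 78278554259586, 78501961728291,
   78656441110626, 79208627533401, 79209518813481, 79414499710821, 79621604970546,
   79691276572161, 80952171370296, 80956466333571, 80957222356611, 80960453044341,
   80966157304101, 80973044327271, 80983759737126, 88044274353306, 88112993765706,
   88125090134346, 88176781138026, 88268049294186, 88378241664906, 88549688222586,
   89078472668841, 89092733150121, 89367577691811, 89486880374946, 89648914392231,
   90254588725911, 90656369707521, 91328800532376, 91329924342936, 91414112807271,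
   91560527634546, 91704156791076, 91751518939206, 92372427507561, 92498155936056,
   92523137235201, 92780046719031, 92780852049921, 94644884500626, 94796550149121,
   95147126753091, 95686111663161, 95737567275156, 95746140931731, 95943692716131,
   96072675435336, 96800857289001, 97006176540231, 97075450177281, 98544345552696,
   98548841608326, 98552398616631, 98556928099956, 98562649629441, 98570719396131,
   105636254876826, 105708191766906, 105765103899786, 105837575632986, 105929120104746,
   106058236371786, 106671342363561, 106941112747941, 107014404993186, 107136267998376,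
   107242572693666, 107835278002836, 107853258971796, 107959557790296, 108059417991681,
   108096736295496, 108113111292471, 108240075819651, 108952767603861, 109158928590081,
   109200274401156, 109352468390181, 109352470488321, 109956450383241, 110179526547201,
   110539761668391, 111064828576041, 111257564845896, 111542911637556, 111639817045761,
   111640085360706, 113321288353176, 113402894977281, 113463020131461, 113475905425701,
   113548928290866, 113840978142036, 114598772512116, 114668571525411, 116141472567426,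
   116146039900161, 116148987331911, 123307244788026, 123380322111786, 123427481019786,
   124402436434341, 124544128459686, 124617277784226, 125416052714136, 125648061925971,
   125648064043521, 125935708822116, 125935757429331, 126721758699816, 126799054284801,
   127554943608921, 127627908777366, 127636538525331, 127683761166696, 127709648410881,
   127889925874536, 127971655057701, 128671727821641, 128869196142081, 128933603934306,
   129058291717176, 129234284601636, 129234301747491, 129831394608531, 129895817578836,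
   130093394560131, 130106279858226, 130333907690241, 132056087941266, 132124826995011,
   132193457443926, 132330921403236, 132330954973476, 132399767962881, 133731089335896,
   133735416996741, 133743943975206, 133748237014326, 133756963065906, 140854295885466,
   140923538458986, 141059970114426, 141128658740346, 141268275565626, 142091510847141,
   142367699191206, 142985173277241, 143053640108691, 143258953542261, 143327413496391,
   143397029509701, 144084998137161, 144152591771541, 144358181021271, 144427965718626,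
   144497085424641, 144566787678501, 145183085319801, 145527192318246, 145666322604801,
   146352749159316, 146420865132801, 146557716993846, 146695038124146, 146765787498051,
   146765821378851, 147382508668761, 147383045792601, 147451227096981, 147519412721991,
   147589478519076, 147725577491511, 147865427316786, 148484053623081, 148552721519766,
   148758894027621, 151367622803751, 151368137836371, 151368607671126, 151368882004806,
   151368915551811, 159091616195466, 159099856717386, 159107374073466, 159111763412346,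
   159112300164426, 160186264658856, 160194563045541, 160198023284391, 160206617265831,
   160212353942691, 160217364981156, 161284951005816, 161297518135911, 161298863131236,
   161302687808001, 161307823245891, 161316825418326, 162388488136071, 162406680994086,
   162410568984321, 163505941147746, 163509540889431, 164583711131496, 164588291126916,
   164592838183011, 164593475471361, 164596310770806, 165687124448391, 165688197449091,
   165692493486081, 165700275020661, 165704846284596, 166793448855606, 166802053662051,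
   166810761580836, 167924721652791, 167924954652786, 167925438838086, 167925980930886,
   167925997642596, 167926359605541, 167926362690561, 188022514668681, 188026242668601,
   188033989633401, 188042663118201, 188042930505561, 188048721912681, 188048771273001,
   188095214782611, 188098634155926, 188108419317906, 188158292941191, 188159622146436,
   188171914082646, 188175460952391, 188186229950721, 188223005561976, 188241193504866,
   188244197544231, 188244666980166, 188254863593766, 188296288864131, 188296557326466,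
   188300228384886, 188317808789331, 188318078301441, 188360682465096, 188368702097511,
   188379003617571, 188434061029506, 188438355998721, 188441842320471, 188446673475381,
   188450707874676, 188461170623811, 188500009165656, 188504269342341, 188508585420801,
   188512915718436, 188517173454081, 188525847859266, 188605205382771, 188606024474706]

def LM : List (List ℕ) :=
  [[384, 80, 40, 516, 1026, 2049], [192, 288, 520, 20, 1026, 2049],
   [544, 144, 72, 260, 1026, 2049], [640, 48, 72, 260, 1026, 2049],
   [640, 48, 264, 68, 1026, 2049], [768, 96, 24, 132, 1026, 2049],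
   [768, 160, 80, 12, 1026, 2049], [320, 160, 520, 1028, 18, 2049],
   [96, 528, 264, 1028, 130, 2049], [384, 576, 48, 1028, 10, 2049],
   [160, 80, 1032, 516, 258, 2049], [320, 144, 1032, 516, 34, 2049],
   [544, 272, 1032, 68, 130, 2049], [576, 144, 1032, 36, 258, 2049],
   [768, 192, 48, 1032, 6, 2049], [192, 1040, 40, 260, 514, 2049],
   [320, 544, 1040, 132, 10, 2049], [576, 160, 1040, 12, 258, 2049],
   [576, 1040, 264, 36, 130, 2049], [768, 96, 1040, 12, 130, 2049],
   [192, 1056, 264, 516, 18, 2049], [192, 1056, 272, 516, 10, 2049],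
   [1056, 80, 520, 260, 130, 2049], [640, 1056, 264, 68, 18, 2049],
   [640, 1056, 272, 72, 6, 2049], [1088, 144, 264, 36, 514, 2049],
   [1088, 48, 520, 132, 258, 2049], [384, 1088, 544, 12, 18, 2049],
   [1152, 96, 272, 516, 10, 2049], [1152, 96, 272, 520, 6, 2049],
   [1152, 528, 40, 68, 258, 2049], [1152, 544, 264, 20, 66, 2049],
   [1152, 576, 24, 260, 34, 2049], [768, 1152, 72, 36, 18, 2049],
   [1280, 160, 24, 68, 514, 2049], [1280, 48, 136, 516, 66, 2049],
   [1280, 96, 144, 520, 6, 2049], [1280, 192, 528, 12, 34, 2049],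
   [1280, 544, 144, 72, 6, 2049], [1280, 640, 80, 36, 10, 2049],
   [1536, 96, 136, 260, 18, 2049], [1536, 288, 144, 68, 10, 2049],
   [192, 272, 520, 36, 2050, 1025], [576, 288, 136, 20, 2050, 1025],
   [320, 48, 136, 1028, 2050, 513], [384, 80, 520, 1028, 2050, 33],
   [288, 528, 72, 1028, 2050, 129], [96, 272, 1032, 132, 2050, 513],
   [320, 160, 1032, 516, 2050, 17], [384, 528, 1032, 36, 2050, 65],
   [192, 544, 1032, 20, 2050, 257], [384, 544, 1032, 20, 2050, 65],
   [640, 288, 1032, 68, 2050, 17], [768, 160, 80, 1032, 2050, 5],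
   [192, 288, 1040, 12, 2050, 513], [96, 1040, 264, 516, 2050, 129],
   [160, 1040, 520, 260, 2050, 65], [192, 544, 1040, 12, 2050, 257],
   [384, 576, 1040, 40, 2050, 5], [640, 320, 1040, 36, 2050, 9],
   [384, 1056, 24, 68, 2050, 513], [1056, 80, 136, 516, 2050, 257],
   [192, 1056, 528, 260, 2050, 9], [1088, 288, 144, 12, 2050, 513],
   [1088, 288, 144, 520, 2050, 5], [1088, 528, 40, 132, 2050, 257],
   [1088, 544, 136, 260, 2050, 17], [640, 1088, 264, 20, 2050, 33],
   [768, 1088, 24, 36, 2050, 129], [1152, 288, 72, 516, 2050, 17],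
   [1152, 320, 24, 516, 2050, 33], [1152, 48, 520, 68, 2050, 257],
   [1152, 528, 72, 260, 2050, 33], [768, 1152, 96, 20, 2050, 9],
   [1280, 160, 72, 20, 2050, 513], [1280, 96, 144, 520, 2050, 5],
   [1280, 528, 136, 36, 2050, 65], [1280, 96, 528, 136, 2050, 5],
   [1280, 544, 144, 12, 2050, 65], [1536, 144, 72, 36, 2050, 257],
   [1536, 192, 24, 260, 2050, 33], [1536, 192, 48, 264, 2050, 5],
   [1536, 320, 160, 24, 2050, 5], [1536, 384, 96, 12, 2050, 17],
   [288, 144, 72, 2052, 514, 1025], [384, 48, 520, 2052, 66, 1025],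
   [384, 96, 528, 2052, 10, 1025], [640, 320, 48, 2052, 10, 1025],
   [768, 192, 24, 2052, 34, 1025], [320, 144, 40, 2052, 1026, 513],
   [192, 544, 264, 2052, 1026, 17], [576, 288, 24, 2052, 1026, 129],
   [384, 576, 24, 2052, 1026, 33], [640, 96, 272, 2052, 1026, 9],
   [768, 48, 136, 2052, 1026, 65], [160, 272, 1032, 2052, 514, 65],
   [192, 528, 1032, 2052, 258, 33], [576, 144, 1032, 2052, 34, 257],
   [640, 48, 1032, 2052, 66, 257], [640, 320, 1032, 2052, 34, 17],
   [192, 288, 1040, 2052, 10, 513], [96, 1040, 136, 2052, 514, 257],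
   [320, 1040, 520, 2052, 130, 33], [384, 544, 1040, 72, 2052, 3],
   [576, 288, 1040, 2052, 10, 129], [768, 160, 1040, 2052, 66, 9],
   [1056, 272, 72, 2052, 130, 513], [192, 1056, 272, 2052, 10, 513],
   [1056, 80, 264, 2052, 514, 129], [1056, 144, 520, 2052, 66, 257],
   [384, 1056, 520, 2052, 18, 65], [576, 1056, 144, 2052, 258, 9],
   [768, 1056, 72, 2052, 130, 17], [1088, 288, 24, 2052, 130, 513],
   [384, 1088, 24, 2052, 514, 33], [384, 1088, 40, 2052, 514, 17],
   [1088, 272, 520, 2052, 34, 129], [768, 1088, 40, 2052, 130, 17],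
   [1152, 576, 272, 40, 2052, 3], [768, 1152, 80, 2052, 10, 33],
   [1280, 528, 40, 2052, 66, 129], [1280, 576, 136, 2052, 34, 17],
   [1280, 640, 72, 2052, 18, 33], [1536, 192, 40, 2052, 18, 257],
   [1536, 48, 72, 2052, 258, 129], [1536, 320, 160, 2052, 10, 17],
   [384, 80, 2056, 36, 514, 1025], [96, 144, 2056, 516, 258, 1025],
   [640, 320, 2056, 20, 34, 1025], [544, 144, 2056, 260, 1026, 65],
   [384, 544, 2056, 20, 1026, 65], [576, 48, 2056, 260, 1026, 129],
   [384, 576, 2056, 20, 1026, 33], [640, 288, 80, 2056, 1026, 5],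
   [192, 272, 2056, 1028, 514, 33], [160, 528, 2056, 1028, 258, 65],
   [320, 544, 2056, 1028, 130, 17], [576, 288, 144, 2056, 1028, 3],
   [768, 48, 2056, 1028, 66, 129], [768, 80, 2056, 1028, 34, 129],
   [288, 1040, 2056, 132, 514, 65], [544, 1040, 2056, 68, 258, 129],
   [640, 1040, 2056, 260, 66, 33], [768, 1040, 2056, 36, 130, 65],
   [768, 96, 1040, 2056, 132, 3], [1056, 80, 2056, 132, 258, 513],
   [384, 1056, 2056, 516, 66, 17], [768, 192, 1056, 2056, 20, 3],
   [384, 1088, 528, 2056, 34, 5], [768, 1088, 144, 2056, 6, 33],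
   [1152, 272, 2056, 68, 34, 513], [1152, 288, 2056, 68, 514, 17],
   [1152, 288, 2056, 516, 18, 65], [1152, 544, 80, 2056, 6, 257],
   [1152, 576, 2056, 20, 258, 33], [1152, 576, 48, 2056, 258, 5],
   [768, 1152, 48, 2056, 66, 5], [1280, 144, 2056, 36, 66, 513],
   [1280, 96, 2056, 132, 514, 17], [1280, 192, 544, 2056, 18, 5],
   [1280, 640, 2056, 68, 34, 17], [1280, 640, 96, 2056, 20, 3],
   [1536, 160, 2056, 20, 66, 257], [1536, 80, 2056, 260, 34, 129],
   [1536, 144, 2056, 260, 34, 65], [1536, 96, 272, 2056, 130, 5],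
   [1536, 320, 2056, 132, 18, 33], [1536, 384, 48, 2056, 68, 3],
   [320, 2064, 40, 132, 514, 1025], [160, 2064, 520, 68, 258, 1025],
   [288, 2064, 520, 68, 130, 1025], [192, 544, 2064, 260, 10, 1025],
   [640, 2064, 264, 36, 66, 1025], [768, 96, 2064, 136, 6, 1025],
   [288, 2064, 72, 132, 1026, 513], [160, 2064, 264, 516, 1026, 65],
   [544, 2064, 136, 68, 1026, 257], [192, 2064, 264, 1028, 34, 513],
   [384, 544, 2064, 1028, 66, 9], [576, 2064, 136, 1028, 34, 257],
   [576, 2064, 264, 1028, 130, 33], [768, 160, 2064, 72, 1028, 3],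
   [192, 288, 2064, 1032, 516, 3], [576, 2064, 1032, 36, 130, 257],
   [768, 2064, 1032, 132, 34, 65], [320, 1056, 2064, 516, 130, 9],
   [768, 1056, 2064, 68, 10, 129], [384, 1088, 2064, 36, 10, 513],
   [1088, 160, 2064, 12, 514, 257], [1088, 2064, 136, 516, 258, 33],
   [1088, 288, 2064, 520, 130, 5], [640, 1088, 2064, 260, 34, 9],
   [768, 1088, 2064, 40, 130, 5], [1152, 2064, 40, 516, 66, 257],
   [1152, 96, 2064, 516, 10, 257], [1152, 96, 2064, 520, 258, 5],
   [1152, 576, 288, 2064, 6, 9], [768, 1152, 2064, 40, 66, 5], [1280, 2064, 136, 68, 34, 513],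
   [1280, 192, 2064, 40, 6, 513], [1280, 2064, 520, 132, 66, 33],
   [1280, 576, 160, 2064, 10, 5], [1280, 640, 2064, 40, 68, 3],
   [1536, 96, 2064, 132, 10, 257], [1536, 96, 2064, 132, 258, 9],
   [1536, 160, 2064, 68, 258, 9], [1536, 2064, 72, 260, 130, 33],
   [1536, 192, 2064, 264, 6, 33], [1536, 288, 2064, 12, 66, 129],
   [1536, 384, 2064, 40, 6, 65], [192, 2080, 264, 20, 514, 1025],
   [192, 2080, 264, 516, 18, 1025], [320, 2080, 136, 516, 18, 1025],
   [2080, 144, 520, 260, 66, 1025], [384, 2080, 528, 12, 66, 1025],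
   [576, 2080, 24, 132, 258, 1025], [768, 2080, 80, 12, 130, 1025],
   [2080, 272, 136, 68, 1026, 513], [384, 2080, 80, 12, 1026, 513],
   [384, 2080, 528, 68, 1026, 9], [576, 2080, 144, 264, 1026, 5],
   [768, 2080, 72, 20, 1026, 129], [320, 2080, 24, 1028, 514, 129],
   [640, 2080, 80, 264, 1028, 3], [2080, 80, 1032, 132, 514, 257],
   [192, 2080, 1032, 20, 514, 257], [2080, 272, 1032, 516, 66, 129],
   [320, 2080, 528, 1032, 130, 5], [384, 576, 2080, 1032, 6, 17],
   [640, 2080, 1032, 260, 18, 65], [2080, 1040, 264, 132, 66, 513],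
   [192, 2080, 1040, 516, 10, 257], [320, 2080, 1040, 136, 516, 3],
   [576, 2080, 1040, 260, 10, 129], [576, 2080, 1040, 136, 260, 3],
   [1088, 2080, 272, 136, 514, 5], [384, 1088, 2080, 520, 20, 3],
   [768, 1088, 2080, 132, 18, 9], [1152, 320, 2080, 20, 10, 513],
   [1152, 2080, 72, 260, 514, 17], [1152, 2080, 272, 68, 514, 9],
   [1152, 2080, 528, 260, 66, 9], [1152, 576, 2080, 12, 18, 257],
   [1280, 2080, 80, 136, 6, 513], [1280, 2080, 520, 68, 18, 129],
   [1280, 2080, 528, 72, 132, 3], [1536, 2080, 80, 132, 10, 257],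
   [1536, 2080, 136, 20, 258, 65], [1536, 2080, 80, 260, 10, 129],
   [1536, 2080, 264, 68, 130, 17], [1536, 192, 2080, 272, 12, 3],
   [1536, 320, 2080, 144, 6, 9], [2112, 160, 264, 20, 514, 1025],
   [2112, 272, 40, 516, 130, 1025], [2112, 160, 520, 20, 258, 1025],
   [2112, 528, 136, 260, 34, 1025], [384, 2112, 544, 24, 6, 1025],
   [640, 2112, 288, 12, 18, 1025], [2112, 160, 272, 12, 1026, 513],
   [2112, 528, 264, 132, 1026, 33], [2112, 544, 272, 136, 1026, 5],
   [640, 2112, 40, 20, 1026, 257], [768, 2112, 160, 24, 1026, 5],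
   [2112, 160, 264, 1028, 514, 17], [384, 2112, 40, 1028, 514, 17],
   [2112, 144, 520, 1028, 34, 257], [384, 2112, 528, 40, 1028, 3],
   [2112, 544, 136, 1028, 18, 257], [2112, 544, 272, 1028, 10, 129],
   [640, 2112, 48, 1028, 258, 9], [384, 2112, 1032, 20, 514, 33],
   [384, 2112, 528, 1032, 36, 3], [2112, 544, 1032, 132, 258, 17],
   [640, 2112, 272, 1032, 6, 33], [640, 2112, 272, 1032, 36, 3],
   [2112, 1040, 136, 36, 258, 513], [2112, 288, 1040, 520, 132, 3],
   [768, 2112, 1040, 40, 6, 129], [2112, 1056, 144, 264, 6, 513],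
   [2112, 1056, 520, 132, 18, 257], [640, 2112, 1056, 260, 10, 17],
   [768, 2112, 1056, 24, 132, 3], [768, 2112, 1056, 136, 18, 5],
   [1152, 2112, 24, 36, 514, 257], [1152, 2112, 48, 264, 516, 3],
   [1152, 2112, 520, 20, 258, 33], [1152, 2112, 272, 520, 6, 33],
   [1152, 2112, 288, 528, 10, 5], [768, 1152, 2112, 12, 34, 17],
   [1280, 2112, 520, 36, 130, 17], [1280, 2112, 160, 528, 6, 9],
   [1536, 2112, 144, 40, 258, 5], [1536, 2112, 160, 24, 260, 3],
   [1536, 2112, 264, 36, 18, 129], [2176, 288, 80, 516, 10, 1025],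
   [2176, 320, 48, 520, 6, 1025], [2176, 528, 72, 36, 258, 1025],
   [2176, 272, 72, 516, 1026, 33], [2176, 288, 528, 12, 1026, 65],
   [2176, 320, 544, 24, 1026, 5], [2176, 48, 72, 1028, 514, 257],
   [2176, 320, 528, 1028, 34, 9], [2176, 320, 528, 40, 1028, 3],
   [768, 2176, 40, 1028, 66, 17], [768, 2176, 80, 1028, 34, 9], [2176, 96, 528, 1032, 6, 257],
   [2176, 544, 80, 1032, 260, 3], [2176, 1040, 72, 260, 34, 513],
   [2176, 1040, 264, 36, 514, 65], [2176, 288, 1040, 68, 514, 9],
   [2176, 1040, 40, 516, 66, 257], [2176, 320, 1040, 40, 516, 3],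
   [2176, 544, 1040, 12, 66, 257], [2176, 576, 1040, 264, 6, 33],
   [2176, 320, 1056, 12, 18, 513], [2176, 1056, 272, 520, 68, 3],
   [2176, 1056, 528, 264, 66, 5], [2176, 576, 1056, 20, 10, 257],
   [768, 2176, 1056, 72, 6, 17], [768, 2176, 1056, 80, 6, 9], [2176, 1088, 272, 36, 514, 9],
   [2176, 1088, 264, 516, 34, 17], [2176, 1088, 544, 20, 258, 9],
   [2176, 1088, 544, 272, 10, 5], [768, 2176, 1088, 48, 12, 3], [1280, 2176, 80, 40, 514, 5],
   [1280, 2176, 96, 516, 18, 9], [1280, 2176, 520, 20, 34, 65], [1280, 2176, 544, 12, 66, 17],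
   [1280, 2176, 544, 72, 6, 17], [1280, 2176, 576, 24, 36, 3], [1536, 2176, 24, 68, 34, 257],
   [1536, 2176, 80, 12, 258, 33], [1536, 2176, 48, 264, 6, 65], [1536, 2176, 272, 36, 10, 65],
   [1536, 2176, 320, 48, 10, 5], [2304, 48, 136, 68, 514, 1025],
   [2304, 160, 24, 516, 66, 1025], [2304, 96, 528, 12, 130, 1025],
   [2304, 544, 72, 20, 130, 1025], [2304, 640, 96, 20, 10, 1025],
   [2304, 144, 520, 68, 1026, 33], [2304, 640, 24, 36, 1026, 65],
   [2304, 160, 80, 1028, 10, 513], [2304, 96, 144, 1028, 514, 9],
   [2304, 528, 72, 1028, 130, 33], [2304, 544, 72, 1028, 18, 129],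
   [2304, 576, 136, 1028, 18, 33], [2304, 192, 1032, 36, 18, 513],
   [2304, 80, 1032, 132, 514, 33], [2304, 528, 1032, 68, 34, 129],
   [2304, 544, 144, 1032, 66, 5], [2304, 576, 160, 1032, 20, 3], [2304, 640, 80, 1032, 6, 33],
   [2304, 1040, 40, 68, 130, 513], [2304, 544, 1040, 136, 6, 65],
   [2304, 640, 96, 1040, 12, 3], [2304, 192, 1056, 12, 514, 17],
   [2304, 1056, 144, 72, 516, 3], [2304, 1056, 528, 132, 10, 65],
   [2304, 576, 1056, 24, 130, 5], [2304, 640, 1056, 68, 18, 9], [2304, 640, 1056, 80, 6, 9],
   [2304, 1088, 24, 132, 34, 513], [2304, 1088, 144, 12, 34, 513],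
   [2304, 1088, 24, 132, 514, 33], [2304, 1088, 40, 516, 18, 129],
   [2304, 1088, 160, 520, 6, 17], [2304, 1088, 544, 20, 10, 129],
   [2304, 640, 1088, 48, 10, 5], [2304, 1152, 48, 72, 6, 513], [2304, 1152, 40, 20, 514, 65],
   [2304, 1152, 528, 12, 66, 33], [1536, 2304, 96, 24, 6, 129], [1536, 2304, 80, 132, 34, 9],
   [1536, 2304, 144, 12, 34, 65], [1536, 2304, 160, 12, 18, 65], [1536, 2304, 160, 68, 18, 9],
   [2560, 192, 48, 12, 258, 1025], [2560, 160, 264, 68, 18, 1025],
   [2560, 288, 24, 68, 130, 1025], [2560, 320, 24, 36, 130, 1025],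
   [2560, 320, 136, 36, 18, 1025], [2560, 96, 144, 12, 1026, 257],
   [2560, 80, 136, 260, 1026, 33], [2560, 48, 264, 68, 1026, 129],
   [2560, 288, 24, 68, 1026, 129], [2560, 320, 160, 20, 1026, 9],
   [2560, 384, 72, 36, 1026, 17], [2560, 80, 40, 1028, 130, 257],
   [2560, 48, 264, 1028, 66, 129], [2560, 160, 264, 1028, 66, 17],
   [2560, 96, 272, 136, 1028, 3], [2560, 192, 288, 1028, 18, 9],
   [2560, 384, 24, 1028, 34, 65], [2560, 80, 1032, 36, 258, 129],
   [2560, 288, 144, 1032, 6, 65], [2560, 320, 48, 1032, 132, 3],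
   [2560, 288, 1040, 136, 66, 5], [2560, 320, 1040, 12, 34, 129],
   [2560, 1056, 24, 132, 66, 257], [2560, 1056, 136, 68, 258, 17],
   [2560, 1056, 144, 260, 66, 9], [2560, 192, 1056, 24, 260, 3],
   [2560, 1056, 264, 20, 130, 65], [2560, 1088, 40, 20, 258, 129],
   [2560, 1088, 144, 36, 258, 9], [2560, 1088, 144, 40, 260, 3],
   [2560, 1088, 272, 12, 130, 33], [2560, 1088, 288, 132, 10, 17],
   [2560, 1152, 48, 260, 10, 65], [2560, 1152, 272, 36, 66, 9], [2560, 1152, 320, 40, 6, 17],
   [2560, 1280, 96, 20, 10, 129], [2560, 1280, 48, 72, 130, 5], [2560, 1280, 136, 36, 18, 65],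
   [2560, 1280, 160, 12, 18, 65], [2560, 1280, 160, 12, 66, 17], [2560, 1280, 192, 24, 6, 33],
   [2560, 1280, 192, 40, 20, 3], [3072, 192, 40, 20, 258, 513], [3072, 96, 144, 260, 10, 513],
   [3072, 272, 72, 36, 130, 513], [3072, 320, 24, 36, 130, 513],
   [3072, 320, 24, 132, 34, 513], [3072, 384, 48, 12, 66, 513], [3072, 384, 80, 40, 6, 513],
   [3072, 160, 80, 260, 514, 9], [3072, 48, 264, 132, 514, 65], [3072, 192, 288, 24, 514, 5],
   [3072, 80, 40, 516, 258, 129], [3072, 160, 72, 516, 258, 17],
   [3072, 272, 136, 516, 34, 65], [3072, 288, 72, 516, 18, 129], [3072, 384, 96, 24, 516, 3],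
   [3072, 96, 520, 20, 130, 257], [3072, 160, 272, 520, 66, 5], [3072, 288, 80, 520, 6, 129],
   [3072, 288, 520, 132, 18, 65], [3072, 384, 48, 520, 6, 65], [3072, 96, 528, 132, 258, 9],
   [3072, 96, 528, 136, 258, 5], [3072, 528, 40, 260, 130, 65], [3072, 320, 528, 132, 34, 9],
   [3072, 320, 528, 136, 36, 3], [3072, 544, 72, 132, 18, 257], [3072, 544, 24, 260, 66, 129],
   [3072, 192, 544, 272, 6, 9], [3072, 576, 48, 136, 258, 5], [3072, 576, 48, 136, 260, 3],
   [3072, 576, 264, 20, 34, 129], [3072, 576, 272, 132, 10, 33],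
   [3072, 576, 288, 12, 130, 17], [3072, 384, 576, 36, 18, 9], [3072, 640, 80, 12, 34, 257],
   [3072, 640, 24, 68, 258, 33], [3072, 640, 48, 72, 260, 3], [3072, 640, 96, 264, 6, 17],
   [3072, 640, 272, 72, 36, 3], [3072, 640, 320, 40, 18, 5], [3072, 768, 48, 68, 130, 9],
   [3072, 768, 144, 72, 34, 5]]

/-! ### Executable checks -/

def digit (c v : ℕ) : ℕ := Nat.mod (Nat.div c (Nat.pow 16 v)) 16

def goodAt (c v : ℕ) : Bool :=
  Nat.blt (digit c v) 12 && (!(Nat.beq (digit c v) v) && Nat.beq (digit c (digit c v)) v)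

def goodUpTo (c : ℕ) : ℕ → Bool
  | 0 => true
  | k + 1 => goodAt c k && goodUpTo c k

def encTo (c : ℕ) : ℕ → ℕ
  | 0 => 0
  | k + 1 => Nat.add (Nat.mul (digit c k) (Nat.pow 16 k)) (encTo c k)

def allGood : List ℕ → Bool
  | [] => true
  | c :: l => goodUpTo c 12 && (Nat.beq (encTo c 12) c && allGood l)

def sortedB : List ℕ → Bool
  | [] => true
  | [_] => true
  | a :: b :: l => Nat.blt a b && sortedB (b :: l)

/-- The edge masks of the matching with code `c`. -/
def EMto (c : ℕ) : ℕ → List ℕ
  | 0 => []
  | k + 1 => bif Nat.blt k (digit c k) then Nat.lor (Nat.pow 2 k) (Nat.pow 2 (digit c k)) :: EMto c k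
      else EMto c k

def eqL : List ℕ → List ℕ → Bool
  | [], [] => true
  | a :: l, b :: l' => Nat.beq a b && eqL l l'
  | _, _ => false

def eqLL : List (List ℕ) → List ℕ → Bool
  | [], [] => true
  | a :: l, c :: l' => eqL a (EMto c 12) && eqLL l l'
  | _, _ => false

def okE (mask e : ℕ) : Bool := Nat.beq (Nat.land mask e) 0 || Nat.beq (Nat.land mask e) e

def ok (mask : ℕ) : List ℕ → Bool
  | [] => true
  | e :: l => okE mask e && ok mask l

def cnt (mask : ℕ) : List (List ℕ) → ℕ
  | [] => 0
  | m :: l => bif ok mask m then Nat.succ (cnt mask l) else cnt mask l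

def popc : ℕ → ℕ → ℕ
  | 0, _ => 0
  | k + 1, m => Nat.add (Nat.mod m 2) (popc k (Nat.div m 2))

/-- Checks all masks `2j+1` with `j < k`. -/
def chk : ℕ → Bool
  | 0 => true
  | k + 1 => (!(Nat.beq (popc 12 (Nat.add (Nat.mul 2 k) 1)) 6) ||
      Nat.beq (cnt (Nat.add (Nat.mul 2 k) 1) LM) 10) && chk k

set_option maxRecDepth 100000 in
lemma L_good : allGood L = true := by
  decide +kernel

set_option maxRecDepth 100000 in
lemma L_sorted : sortedB L = true := by
  decide +kernel

set_option maxRecDepth 100000 in
lemma LM_eq : eqLL LM L = true := by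
  decide +kernel

set_option maxRecDepth 100000 in
lemma chk_all : chk 2048 = true := by
  decide +kernel

/-! ### From the checks to statements -/

lemma goodAt_spec {c v : ℕ} (h : goodAt c v = true) :
    digit c v < 12 ∧ digit c v ≠ v ∧ digit c (digit c v) = v := by
  simp only [goodAt, Bool.and_eq_true, Bool.not_eq_true', Nat.blt_eq] at h
  refine ⟨h.1, ?_, Nat.eq_of_beq_eq_true h.2.2⟩
  intro h2
  have h3 := h.2.1
  rw [h2, Nat.beq_refl] at h3
  exact absurd h3 (by decide)

lemma goodUpTo_spec {c : ℕ} : ∀ k, goodUpTo c k = true → ∀ v < k, goodAt c v = true := by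
  intro k
  induction k with
  | zero => intro _ v hv; omega
  | succ k ih =>
    intro h v hv
    simp only [goodUpTo, Bool.and_eq_true] at h
    rcases Nat.lt_succ_iff_lt_or_eq.mp hv with h1 | h1
    · exact ih h.2 v h1
    · rw [h1]; exact h.1

lemma allGood_spec : ∀ l : List ℕ, allGood l = true → ∀ c ∈ l,
    (∀ v < 12, digit c v < 12 ∧ digit c v ≠ v ∧ digit c (digit c v) = v) ∧ encTo c 12 = c := by
  intro l
  induction l with
  | nil => intro _ c hc; simp at hc
  | cons a l ih =>
    intro h c hc
    simp only [allGood, Bool.and_eq_true] at h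
    rcases List.mem_cons.mp hc with rfl | hc
    · exact ⟨fun v hv => goodAt_spec (goodUpTo_spec 12 h.1 v hv), Nat.eq_of_beq_eq_true h.2.1⟩
    · exact ih h.2.2 c hc

lemma L_spec : ∀ c ∈ L,
    (∀ v < 12, digit c v < 12 ∧ digit c v ≠ v ∧ digit c (digit c v) = v) ∧ encTo c 12 = c :=
  allGood_spec L L_good

lemma sortedB_spec : ∀ l : List ℕ, sortedB l = true → l.Pairwise (· < ·) := by
  intro l
  induction l with
  | nil => intro _; exact List.Pairwise.nil
  | cons a l ih =>
    intro h
    rcases l with _ | ⟨b, l⟩
    · exact List.pairwise_singleton _ _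
    · simp only [sortedB, Bool.and_eq_true, Nat.blt_eq] at h
      have h2 := ih h.2
      rw [List.pairwise_cons]
      refine ⟨?_, h2⟩
      intro x hx
      rcases List.mem_cons.mp hx with rfl | hx
      · exact h.1
      · exact h.1.trans ((List.pairwise_cons.mp h2).1 x hx)

lemma L_nodup : L.Nodup := (sortedB_spec L L_sorted).imp (fun h => Nat.ne_of_lt h)

lemma eqL_spec : ∀ l l' : List ℕ, eqL l l' = true → l = l' := by
  intro l
  induction l with
  | nil => intro l' h; rcases l' with _ | ⟨b, l'⟩; rfl; simp [eqL] at h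
  | cons a l ih =>
    intro l' h
    rcases l' with _ | ⟨b, l'⟩
    · simp [eqL] at h
    · simp only [eqL, Bool.and_eq_true] at h
      rw [Nat.eq_of_beq_eq_true h.1, ih l' h.2]

lemma eqLL_spec : ∀ (l : List (List ℕ)) (l' : List ℕ), eqLL l l' = true →
    l = l'.map (fun c => EMto c 12) := by
  intro l
  induction l with
  | nil => intro l' h; rcases l' with _ | ⟨b, l'⟩; rfl; simp [eqLL] at h
  | cons a l ih =>
    intro l' h
    rcases l' with _ | ⟨b, l'⟩
    · simp [eqLL] at h
    · simp only [eqLL, Bool.and_eq_true] at h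
      rw [eqL_spec _ _ h.1, ih l' h.2]
      rfl

lemma LM_spec : LM = L.map (fun c => EMto c 12) := eqLL_spec LM L LM_eq

lemma cnt_spec (mask : ℕ) : ∀ l : List (List ℕ), cnt mask l = (l.filter (ok mask)).length := by
  intro l
  induction l with
  | nil => rfl
  | cons a l ih =>
    rw [cnt, List.filter_cons]
    by_cases h : ok mask a = true
    · simp [h, ih]
    · have h' : ok mask a = false := by simpa using h
      simp [h', ih]

lemma chk_spec : ∀ k, chk k = true → ∀ j < k, popc 12 (2 * j + 1) = 6 →
    cnt (2 * j + 1) LM = 10 := by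
  intro k
  induction k with
  | zero => intro _ j hj; omega
  | succ k ih =>
    intro h j hj hp
    rw [chk, Bool.and_eq_true] at h
    rcases Nat.lt_succ_iff_lt_or_eq.mp hj with h1 | h1
    · exact ih h.2 j h1 hp
    · subst h1
      have h2 := h.1
      rw [Bool.or_eq_true] at h2
      rcases h2 with h2 | h2
      · exfalso
        rw [Bool.not_eq_true'] at h2
        have h3 : Nat.beq (popc 12 (2 * j + 1)) 6 = false := h2
        rw [hp] at h3
        exact absurd h3 (by decide)
      · exact Nat.eq_of_beq_eq_true h2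

/-! ### Masks -/

def bits (f : ℕ → Bool) : ℕ → ℕ
  | 0 => 0
  | k + 1 => Nat.bit (f 0) (bits (fun i => f (i + 1)) k)

lemma testBit_bits : ∀ (k : ℕ) (f : ℕ → Bool) (i : ℕ),
    (bits f k).testBit i = (decide (i < k) && f i) := by
  intro k
  induction k with
  | zero => intro f i; simp [bits]
  | succ k ih =>
    intro f i
    rw [bits]
    rcases i with _ | i
    · rw [Nat.testBit_bit_zero]; simp
    · rw [Nat.testBit_bit_succ, ih]; simp

lemma popc_bits : ∀ (k : ℕ) (f : ℕ → Bool),
    popc k (bits f k) = ∑ i ∈ Finset.range k, (f i).toNat := by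
  intro k
  induction k with
  | zero => intro f; rfl
  | succ k ih =>
    intro f
    rw [Finset.sum_range_succ', ← ih (fun i => f (i + 1))]
    show (Nat.bit (f 0) (bits (fun i => f (i + 1)) k)) % 2
      + popc k ((Nat.bit (f 0) (bits (fun i => f (i + 1)) k)) / 2) = _
    rw [Nat.bit_div_two, Nat.bit_mod_two]
    cases f 0 <;> simp <;> omega

lemma bits_lt : ∀ (k : ℕ) (f : ℕ → Bool), bits f k < 2 ^ k := by
  intro k
  induction k with
  | zero => intro f; simp [bits]
  | succ k ih =>
    intro f
    have := ih (fun i => f (i + 1))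
    rw [bits, Nat.bit_val, pow_succ]
    cases f 0 <;> simp <;> omega

lemma okE_spec (mask a b : ℕ) :
    okE mask (Nat.lor (Nat.pow 2 a) (Nat.pow 2 b)) = true ↔ mask.testBit a = mask.testBit b := by
  have hE : ∀ i, (Nat.lor (Nat.pow 2 a) (Nat.pow 2 b)).testBit i
      = (decide (a = i) || decide (b = i)) := by
    intro i
    show (2 ^ a ||| 2 ^ b).testBit i = _
    rw [Nat.testBit_or, Nat.testBit_two_pow, Nat.testBit_two_pow]
  have hA : ∀ i, (Nat.land mask (Nat.lor (Nat.pow 2 a) (Nat.pow 2 b))).testBit i
      = (mask.testBit i && (decide (a = i) || decide (b = i))) := by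
    intro i
    rw [← hE i]
    exact Nat.testBit_and _ _ _
  rw [okE, Bool.or_eq_true]
  constructor
  · rintro (h | h)
    · have h1 := Nat.eq_of_beq_eq_true h
      have ha := hA a
      have hb := hA b
      rw [h1] at ha hb
      simp at ha hb
      rw [ha, hb]
    · have h1 := Nat.eq_of_beq_eq_true h
      have ha := hA a
      have hb := hA b
      rw [h1, hE] at ha hb
      simp at ha hb
      rw [ha, hb]
  · intro h
    by_cases ha : mask.testBit a = true
    · right
      have hb : mask.testBit b = true := by rw [← h]; exact ha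
      have : Nat.land mask (Nat.lor (Nat.pow 2 a) (Nat.pow 2 b))
          = Nat.lor (Nat.pow 2 a) (Nat.pow 2 b) := by
        apply Nat.eq_of_testBit_eq
        intro i
        rw [hA, hE]
        by_cases h1 : a = i
        · subst h1; simp [ha]
        · by_cases h2 : b = i
          · subst h2; simp [hb]
          · simp [h1, h2]
      rw [this]
      exact Nat.beq_refl _
    · left
      have ha' : mask.testBit a = false := by simpa using ha
      have hb : mask.testBit b = false := by rw [← h]; exact ha'
      have : Nat.land mask (Nat.lor (Nat.pow 2 a) (Nat.pow 2 b)) = 0 := by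
        apply Nat.eq_of_testBit_eq
        intro i
        rw [hA, Nat.zero_testBit]
        by_cases h1 : a = i
        · subst h1; simp [ha']
        · by_cases h2 : b = i
          · subst h2; simp [hb]
          · simp [h1, h2]
      rw [this]
      rfl

lemma ok_iff (mask : ℕ) : ∀ l : List ℕ, ok mask l = true ↔ ∀ e ∈ l, okE mask e = true := by
  intro l
  induction l with
  | nil => simp [ok]
  | cons a l ih => simp [ok, ih]

lemma mem_EMto (c : ℕ) : ∀ k e, e ∈ EMto c k ↔
    ∃ v < k, v < digit c v ∧ e = Nat.lor (Nat.pow 2 v) (Nat.pow 2 (digit c v)) := by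
  intro k
  induction k with
  | zero => intro e; simp [EMto]
  | succ k ih =>
    intro e
    rw [EMto]
    by_cases h : Nat.blt k (digit c k) = true
    · rw [h, cond_true, List.mem_cons, ih]
      constructor
      · rintro (rfl | ⟨v, hv, h1, h2⟩)
        · exact ⟨k, Nat.lt_succ_self k, by simpa [Nat.blt_eq] using h, rfl⟩
        · exact ⟨v, by omega, h1, h2⟩
      · rintro ⟨v, hv, h1, h2⟩
        rcases Nat.lt_succ_iff_lt_or_eq.mp hv with h3 | h3
        · exact Or.inr ⟨v, h3, h1, h2⟩
        · subst h3; exact Or.inl h2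
    · have h' : Nat.blt k (digit c k) = false := Bool.eq_false_iff.mpr h
      rw [h', cond_false, ih]
      constructor
      · rintro ⟨v, hv, h1, h2⟩
        exact ⟨v, by omega, h1, h2⟩
      · rintro ⟨v, hv, h1, h2⟩
        rcases Nat.lt_succ_iff_lt_or_eq.mp hv with h3 | h3
        · exact ⟨v, h3, h1, h2⟩
        · subst h3
          exact absurd (Nat.blt_eq.mpr h1) h

lemma ok_EMto (mask c : ℕ)
    (hc : ∀ v < 12, digit c v < 12 ∧ digit c v ≠ v ∧ digit c (digit c v) = v) :
    ok mask (EMto c 12) = true ↔ ∀ v < 12, mask.testBit v = mask.testBit (digit c v) := by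
  rw [ok_iff]
  constructor
  · intro h v hv
    obtain ⟨h1, h2, h3⟩ := hc v hv
    rcases Nat.lt_or_gt_of_ne h2 with h4 | h4
    · have h5 := h (Nat.lor (Nat.pow 2 (digit c v)) (Nat.pow 2 (digit c (digit c v))))
        ((mem_EMto c 12 _).mpr ⟨digit c v, h1, by rw [h3]; exact h4, rfl⟩)
      rw [okE_spec, h3] at h5
      exact h5.symm
    · have h5 := h (Nat.lor (Nat.pow 2 v) (Nat.pow 2 (digit c v)))
        ((mem_EMto c 12 _).mpr ⟨v, hv, h4, rfl⟩)
      rw [okE_spec] at h5
      exact h5
  · intro h e he
    obtain ⟨v, hv, _, rfl⟩ := (mem_EMto c 12 e).mp he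
    rw [okE_spec]
    exact h v hv

/-! ### Matchings from involutions -/

/-- The matching with partner function `f`. -/
def mat (f : Fin 12 → Fin 12) : Finset (Sym2 (Fin 12)) := univ.image (fun v => s(v, f v))

def Inv (f : Fin 12 → Fin 12) : Prop := ∀ v, f (f v) = v ∧ f v ≠ v

lemma mem_mat {f : Fin 12 → Fin 12} (hf : Inv f) (v w : Fin 12) :
    s(v, w) ∈ mat f ↔ w = f v := by
  rw [mat, Finset.mem_image]
  constructor
  · rintro ⟨u, _, hu⟩
    rcases Sym2.eq_iff.mp hu with ⟨h1, h2⟩ | ⟨h1, h2⟩
    · rw [← h1, h2]
    · rw [← h2, ← h1, (hf u).1]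
  · rintro rfl
    exact ⟨v, Finset.mem_univ _, rfl⟩

lemma isPM_mat {f : Fin 12 → Fin 12} (hf : Inv f) : IsPM (mat f) := by
  constructor
  · intro e he
    rw [mat, Finset.mem_image] at he
    obtain ⟨u, _, rfl⟩ := he
    rw [Sym2.mk_isDiag_iff]
    exact fun h => (hf u).2 h.symm
  · intro v
    refine ⟨s(v, f v), ⟨(mem_mat hf _ _).mpr rfl, Sym2.mem_mk_left _ _⟩, ?_⟩
    rintro e ⟨he, hv⟩
    obtain ⟨w, rfl⟩ := Sym2.mem_iff_exists.mp hv
    rw [(mem_mat hf _ _).mp he]

lemma mat_inj {f g : Fin 12 → Fin 12} (hf : Inv f) (hg : Inv g) (h : mat f = mat g) : f = g := by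
  funext v
  have h1 : s(v, f v) ∈ mat f := (mem_mat hf _ _).mpr rfl
  rw [h] at h1
  exact (mem_mat hg _ _).mp h1

/-- The partner function with code `c`. -/
def dec (c : ℕ) : Fin 12 → Fin 12 := fun v =>
  if h : digit c v.val < 12 then ⟨digit c v.val, h⟩ else v

lemma dec_val {c : ℕ} (hc : c ∈ L) (v : Fin 12) : (dec c v).val = digit c v.val := by
  unfold dec
  rw [dif_pos ((L_spec c hc).1 v.val v.isLt).1]

lemma dec_inv {c : ℕ} (hc : c ∈ L) : Inv (dec c) := by
  intro v
  have h := (L_spec c hc).1 v.val v.isLt
  constructor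
  · apply Fin.ext
    rw [dec_val hc, dec_val hc]
    exact h.2.2
  · intro h2
    apply h.2.1
    have := congrArg Fin.val h2
    rwa [dec_val hc] at this

lemma encTo_congr {c c' : ℕ} : ∀ k, (∀ v < k, digit c v = digit c' v) → encTo c k = encTo c' k := by
  intro k
  induction k with
  | zero => intro _; rfl
  | succ k ih =>
    intro h
    rw [encTo, encTo, ih (fun v hv => h v (by omega)), h k (by omega)]

lemma dec_inj {c c' : ℕ} (hc : c ∈ L) (hc' : c' ∈ L) (h : dec c = dec c') : c = c' := by
  rw [← (L_spec c hc).2, ← (L_spec c' hc').2]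
  apply encTo_congr
  intro v hv
  have := congrArg Fin.val (congrFun h ⟨v, hv⟩)
  rwa [dec_val hc, dec_val hc'] at this

/-- The factorisation. -/
def D : Set (Finset (Sym2 (Fin 12))) := {m | ∃ c ∈ L, m = mat (dec c)}

lemma count_filter (R : Finset (Sym2 (Fin 12)) → Prop) [DecidablePred R] :
    {m | m ∈ D ∧ R m}.ncard = (L.filter (fun c => decide (R (mat (dec c))))).length := by
  have hnd : ((L.filter (fun c => decide (R (mat (dec c))))).map (fun c => mat (dec c))).Nodup := by
    rw [List.nodup_map_iff_inj_on (L_nodup.filter _)]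
    intro x hx y hy hxy
    have hx' := (List.mem_filter.mp hx).1
    have hy' := (List.mem_filter.mp hy).1
    exact dec_inj hx' hy' (mat_inj (dec_inv hx') (dec_inv hy') hxy)
  have hset : {m | m ∈ D ∧ R m} =
      (((L.filter (fun c => decide (R (mat (dec c))))).map (fun c => mat (dec c))).toFinset :
        Set (Finset (Sym2 (Fin 12)))) := by
    ext m
    simp only [List.coe_toFinset, List.mem_map, List.mem_filter, decide_eq_true_eq]
    constructor
    · rintro ⟨⟨c, hc, rfl⟩, hR⟩
      exact ⟨c, ⟨hc, hR⟩, rfl⟩
    · rintro ⟨c, ⟨hc, hR⟩, rfl⟩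
      exact ⟨⟨c, hc, rfl⟩, hR⟩
  rw [hset, Set.ncard_coe_finset, List.toFinset_card_of_nodup hnd, List.length_map]

lemma refines_iff (P : Finpartition (univ : Finset (Fin 12))) (A B : Finset (Fin 12))
    (hP : P.parts = {A, B}) (hAB : A ≠ B) (f : Fin 12 → Fin 12) :
    Refines (mat f) P ↔ ∀ v, (v ∈ A ↔ f v ∈ A) := by
  have hA : A ∈ P.parts := by rw [hP]; simp
  have hB : B ∈ P.parts := by rw [hP]; simp
  have hdisj : Disjoint A B := P.disjoint hA hB hAB
  have hcov : ∀ v, v ∈ A ∨ v ∈ B := by
    intro v
    obtain ⟨C, hC, hv⟩ := P.exists_mem (Finset.mem_univ v)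
    rw [hP, Finset.mem_insert, Finset.mem_singleton] at hC
    rcases hC with rfl | rfl
    · exact Or.inl hv
    · exact Or.inr hv
  have hnot : ∀ v, v ∈ B → v ∉ A := fun v hv hvA => Finset.disjoint_left.mp hdisj hvA hv
  unfold Refines mat
  constructor
  · intro h v
    obtain ⟨C, hC, hCv⟩ := h s(v, f v) (Finset.mem_image.mpr ⟨v, Finset.mem_univ _, rfl⟩)
    have h1 := hCv v (Sym2.mem_mk_left _ _)
    have h2 := hCv (f v) (Sym2.mem_mk_right _ _)
    rw [hP, Finset.mem_insert, Finset.mem_singleton] at hC
    rcases hC with rfl | rfl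
    · exact ⟨fun _ => h2, fun _ => h1⟩
    · exact ⟨fun h3 => absurd h3 (hnot v h1), fun h3 => absurd h3 (hnot _ h2)⟩
  · intro h e he
    obtain ⟨v, _, rfl⟩ := Finset.mem_image.mp he
    rcases hcov v with hv | hv
    · refine ⟨A, hA, ?_⟩
      intro w hw
      rcases Sym2.mem_iff.mp hw with rfl | rfl
      · exact hv
      · exact (h v).mp hv
    · refine ⟨B, hB, ?_⟩
      intro w hw
      rcases Sym2.mem_iff.mp hw with rfl | rfl
      · exact hv
      · rcases hcov (f v) with h1 | h1
        · exact absurd ((h v).mpr h1) (hnot v hv)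
        · exact h1

lemma count_main (P : Finpartition (univ : Finset (Fin 12))) (A B : Finset (Fin 12))
    (hP : P.parts = {A, B}) (hAB : A ≠ B) (hA : A.card = 6) (h0 : (0 : Fin 12) ∈ A) :
    {m | m ∈ D ∧ Refines m P}.ncard = 10 := by
  classical
  rw [count_filter]
  let f : ℕ → Bool := fun i => decide (∃ h : i < 12, (⟨i, h⟩ : Fin 12) ∈ A)
  have hf : ∀ v : Fin 12, f v.val = decide (v ∈ A) := by
    intro v
    apply decide_eq_decide.mpr
    exact ⟨fun ⟨_, h⟩ => h, fun h => ⟨v.isLt, h⟩⟩
  have htb : ∀ v : Fin 12, (bits f 12).testBit v.val = decide (v ∈ A) := by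
    intro v
    rw [testBit_bits, hf v]
    simp
  have hpop : popc 12 (bits f 12) = 6 := by
    rw [popc_bits, Finset.sum_range]
    rw [Finset.sum_congr rfl (fun v _ => by rw [hf v])]
    have : ∀ v : Fin 12, (decide (v ∈ A)).toNat = if v ∈ A then 1 else 0 := by
      intro v
      by_cases h : v ∈ A <;> simp [h]
    rw [Finset.sum_congr rfl (fun v _ => this v), ← Finset.card_filter]
    rw [← hA]
    congr 1
    ext v; simp
  obtain ⟨j, hj⟩ : ∃ j, bits f 12 = 2 * j + 1 := by
    refine ⟨bits (fun i => f (i + 1)) 11, ?_⟩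
    rw [bits, Nat.bit_val]
    have : f 0 = true := by
      have := hf 0
      rw [decide_eq_true h0] at this
      exact this
    rw [this]
    rfl
  have hlt : j < 2048 := by
    have := bits_lt 12 f
    omega
  have h10 := chk_spec 2048 chk_all j hlt (by rw [← hj]; exact hpop)
  rw [← hj, LM_spec, cnt_spec, List.filter_map, List.length_map] at h10
  rw [← h10]
  congr 1
  apply List.filter_congr
  intro c hc
  rw [Function.comp_apply]
  rw [Bool.eq_iff_iff, decide_eq_true_iff, refines_iff P A B hP hAB,
    ok_EMto _ _ (L_spec c hc).1]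
  constructor
  · intro h v hv
    have h1 := htb ⟨v, hv⟩
    have h2 := htb (dec c ⟨v, hv⟩)
    rw [dec_val hc] at h2
    simp only at h1 h2
    rw [h1, h2]
    exact decide_eq_decide.mpr (h ⟨v, hv⟩)
  · intro h v
    have h3 := h v.val v.isLt
    have h1 := htb v
    have h2 := htb (dec c v)
    rw [dec_val hc] at h2
    rw [h1, h2] at h3
    exact decide_eq_decide.mp h3

/-- A perfect matching outside `D`. -/
def f0 : Fin 12 → Fin 12 := ![1, 0, 3, 2, 5, 4, 7, 6, 9, 8, 11, 10]

lemma f0_inv : Inv f0 := by unfold Inv; decide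

lemma f0_notMem : mat f0 ∉ D := by
  rintro ⟨c, hc, h⟩
  have h1 := mat_inj f0_inv (dec_inv hc) h
  have h2 : ∀ v : Fin 12, digit c v.val = (f0 v).val := by
    intro v
    rw [h1, dec_val hc]
  have h3 := (L_spec c hc).2
  have e0 := h2 0
  have e1 := h2 1
  have e2 := h2 2
  have e3 := h2 3
  have e4 := h2 4
  have e5 := h2 5
  have e6 := h2 6
  have e7 := h2 7
  have e8 := h2 8
  have e9 := h2 9
  have e10 := h2 10
  have e11 := h2 11
  have h4 : c = 188606631453441 := by
    rw [← h3]
    simp only [encTo]
    simp only [Fin.val_zero, Fin.val_one, Fin.isValue] at e0 e1 e2 e3 e4 e5 e6 e7 e8 e9 e10 e11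
    change digit c 0 = 1 at e0
    change digit c 1 = 0 at e1
    change digit c 2 = 3 at e2
    change digit c 3 = 2 at e3
    change digit c 4 = 5 at e4
    change digit c 5 = 4 at e5
    change digit c 6 = 7 at e6
    change digit c 7 = 6 at e7
    change digit c 8 = 9 at e8
    change digit c 9 = 8 at e9
    change digit c 10 = 11 at e10
    change digit c 11 = 10 at e11
    rw [e0, e1, e2, e3, e4, e5, e6, e7, e8, e9, e10, e11]
  rw [h4] at hc
  exact absurd hc (by decide +kernel)

/-- **Yes**: there is `n ≥ 6` (namely `n = 6`) and a non-trivial `(n-3,3)`-factorisation of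
`K_{2n}`. -/
theorem result : ∃ n : ℕ, 6 ≤ n ∧ ∃ D : Set (Finset (Sym2 (Fin (2 * n)))),
    IsFactorisation n {n - 3, 3} D ∧ D ≠ {m | IsPM m} := by
  refine ⟨6, le_refl _, (D : Set (Finset (Sym2 (Fin 12)))), ⟨?_, ?_, 10, by norm_num, ?_⟩, ?_⟩
  · have hne : ∃ c, c ∈ L := ⟨1269233506731, by decide +kernel⟩
    obtain ⟨c, hc⟩ := hne
    exact ⟨mat (dec c), c, hc, rfl⟩
  · rintro m ⟨c, hc, rfl⟩
    exact isPM_mat (dec_inv hc)
  · intro P hP
    change Finpartition (univ : Finset (Fin 12)) at P
    have hcard : P.parts.card = 2 := by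
      have := congrArg Multiset.card hP
      rw [Multiset.card_map] at this
      simpa using this
    obtain ⟨A, B, hAB, hparts⟩ := Finset.card_eq_two.mp hcard
    have h6 : ∀ X ∈ P.parts, X.card = 6 := by
      intro X hX
      have h1 : X.card ∈ P.parts.val.map Finset.card := Multiset.mem_map_of_mem _ hX
      rw [hP] at h1
      simpa using h1
    have hA : A ∈ P.parts := by rw [hparts]; simp
    have hB : B ∈ P.parts := by rw [hparts]; simp
    obtain ⟨C, hC, h0⟩ := P.exists_mem (Finset.mem_univ (0 : Fin 12))
    rw [hparts, Finset.mem_insert, Finset.mem_singleton] at hC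
    rcases hC with rfl | rfl
    · exact count_main P C B hparts hAB (h6 C hA) h0
    · exact count_main P C A (by rw [hparts, Finset.pair_comm]) hAB.symm (h6 C hB) h0
  · intro h
    apply f0_notMem
    have h1 : mat f0 ∈ {m : Finset (Sym2 (Fin 12)) | IsPM m} := isPM_mat f0_inv
    exact h ▸ h1

end Pool.Agent.Results.MP_3f0bb6_co.TwelvePoints
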